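import Pool.Agent.H23.FC.Targets
import Pool.Agent.H75.FM.THH

/-!
# MP_52e316_nt, board `fmx_modules`, row KTH: the theta function with an angular factor in the half
plane
-/

set_option autoImplicit false

open MeasureTheory Set Filter
open scoped Real Topology

namespace Pool.Agent.H13.FC

open Pool.Agent.H31.CN Pool.Agent.H89.FM Pool.Agent.H89.FC Pool.Agent.H23.FC

theorem norm_thm_le (m : ℤ) (n : ℕ) (L : AddSubgroup (ℤ × ℤ)) (x y u B : ℝ) (hy : 0 < y)
    (hu : 0 < u) (w : ℂ) (hw : u ≤ w.re) (hB : ‖w‖ ≤ B) (v : ℤ × ℤ) :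
    ‖thm m n L x y w v‖ ≤ (B / u) ^ m.natAbs * ‖thm m n L x y (u : ℂ) v‖ := by
  classical
  unfold thm
  split_ifs with h
  · have hq : 0 ≤ qz x y v / n := div_nonneg (Pool.Agent.H75.FM.qz_nonneg x y hy v) (Nat.cast_nonneg _)
    have hB0 : 0 ≤ B := (norm_nonneg _).trans hB
    have h1 : ‖Complex.exp (-(2 * π * w * ((qz x y v / n : ℝ) : ℂ)))‖ ≤
        Real.exp (-(2 * π * u * (qz x y v / n))) := Pool.Agent.H75.FM.norm_term x y n hy u v w hw
    have h2 : ‖Complex.exp (-(2 * π * (u : ℂ) * ((qz x y v / n : ℝ) : ℂ)))‖ =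
        Real.exp (-(2 * π * u * (qz x y v / n))) := by
      rw [Complex.norm_exp]
      congr 1
      have h3 : (-(2 * π * (u : ℂ) * ((qz x y v / n : ℝ) : ℂ))) =
          ((-(2 * π * u * (qz x y v / n)) : ℝ) : ℂ) := by
        push_cast
        ring
      rw [h3, Complex.ofReal_re]
    rw [norm_mul, norm_mul, norm_mul, norm_mul, norm_pow, norm_pow, norm_mul, norm_mul, h2,
      Complex.norm_real, Complex.norm_real, Real.norm_of_nonneg hq, Real.norm_of_nonneg hu.le]
    have h4 : (‖w‖ * (qz x y v / n)) ^ m.natAbs ≤ (B * (qz x y v / n)) ^ m.natAbs :=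
      pow_le_pow_left₀ (by positivity) (mul_le_mul_of_nonneg_right hB hq) _
    have h5 : (B / u) ^ m.natAbs * (u * (qz x y v / n)) ^ m.natAbs =
        (B * (qz x y v / n)) ^ m.natAbs := by
      rw [← mul_pow]
      congr 1
      field_simp
    calc ‖an x y v ^ m‖ * (‖w‖ * (qz x y v / n)) ^ m.natAbs *
          ‖Complex.exp (-(2 * π * w * ((qz x y v / n : ℝ) : ℂ)))‖
        ≤ ‖an x y v ^ m‖ * (B * (qz x y v / n)) ^ m.natAbs *
          Real.exp (-(2 * π * u * (qz x y v / n))) := by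
          refine mul_le_mul (mul_le_mul_of_nonneg_left h4 (norm_nonneg _)) h1 (norm_nonneg _) ?_
          positivity
      _ = (B / u) ^ m.natAbs * (‖an x y v ^ m‖ * (u * (qz x y v / n)) ^ m.natAbs *
          Real.exp (-(2 * π * u * (qz x y v / n)))) := by
          rw [← h5]
          ring
  · rw [norm_zero, mul_zero]

theorem ThM_diff (hTHLm : T_THLm) (m : ℤ) (n : ℕ) (L : AddSubgroup (ℤ × ℤ)) (x y : ℝ)
    (hm : m ≠ 0) (hn : 1 ≤ n) (hL : L ∈ Ls n) (hy : 0 < y) :
    DifferentiableOn ℂ (ThM m n L x y) {w | 0 < w.re} := by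
  classical
  intro w₀ hw₀
  rw [mem_ofPred_eq] at hw₀
  have hopen : IsOpen {w : ℂ | w₀.re / 2 < w.re ∧ ‖w‖ < 2 * ‖w₀‖ + 1} :=
    (isOpen_lt continuous_const Complex.continuous_re).inter
      (isOpen_lt continuous_norm continuous_const)
  have hsum := (hTHLm m n L x y (w₀.re / 2) hm hn hL hy (by linarith)).1
  have hd : DifferentiableOn ℂ (fun w : ℂ => ∑' v : ℤ × ℤ, thm m n L x y w v)
      {w : ℂ | w₀.re / 2 < w.re ∧ ‖w‖ < 2 * ‖w₀‖ + 1} := by
    refine Complex.differentiableOn_tsum_of_summable_norm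
      (hsum.mul_left (((2 * ‖w₀‖ + 1) / (w₀.re / 2)) ^ m.natAbs)) (fun v => ?_) hopen
      fun v w hw => ?_
    · unfold thm
      split_ifs
      · exact (((differentiable_const _).mul ((differentiable_id.mul_const _).pow _)).mul
          ((differentiable_id.const_mul _).mul_const _).neg.cexp).differentiableOn
      · exact differentiableOn_const _
    · exact norm_thm_le m n L x y _ _ hy (by linarith) w hw.1.le hw.2.le v
  have hmem : w₀ ∈ {w : ℂ | w₀.re / 2 < w.re ∧ ‖w‖ < 2 * ‖w₀‖ + 1} := by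
    refine ⟨by linarith, ?_⟩
    have := norm_nonneg w₀
    linarith
  exact (hd.differentiableAt (hopen.mem_nhds hmem)).differentiableWithinAt

theorem pf_THHm (hTHLm : T_THLm) : T_THHm := by
  intro m n L x y hm hn hL hy
  have hd := ThM_diff hTHLm m n L x y hm hn hL hy
  refine ⟨hd, ?_⟩
  have hopen : IsOpen {w : ℂ | 0 < w.re} := isOpen_lt continuous_const Complex.continuous_re
  have hne : ∀ w ∈ {w : ℂ | 0 < w.re}, w ≠ 0 := by
    rintro w hw rfl
    rw [mem_ofPred_eq] at hw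
    simp at hw
  have hf : DifferentiableOn ℂ (fun w => ThM m n L x y w⁻¹) {w | 0 < w.re} := by
    refine hd.comp (differentiableOn_id.inv hne) ?_
    intro w hw
    exact Pool.Agent.H75.FM.re_inv_pos w hw
  have hg : DifferentiableOn ℂ (fun w => w * ThM m n L x y w) {w | 0 < w.re} :=
    differentiableOn_id.mul hd
  have hconn : IsPreconnected {w : ℂ | 0 < w.re} := (convex_halfSpace_re_gt 0).isPreconnected
  have h1mem : (1 : ℂ) ∈ {w : ℂ | 0 < w.re} := by
    rw [mem_ofPred_eq]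
    simp
  have hreal : ∀ᶠ u : ℝ in 𝓝[≠] (1 : ℝ), ThM m n L x y ((u : ℝ) : ℂ)⁻¹ =
      ((u : ℝ) : ℂ) * ThM m n L x y ((u : ℝ) : ℂ) := by
    have h1 : ∀ᶠ u : ℝ in 𝓝 (1 : ℝ), 0 < u := eventually_gt_nhds one_pos
    filter_upwards [h1.filter_mono nhdsWithin_le_nhds] with u hu
    rw [← Complex.ofReal_inv]
    exact (hTHLm m n L x y u hm hn hL hy hu).2
  have htend : Tendsto (fun u : ℝ => (u : ℂ)) (𝓝[≠] (1 : ℝ)) (𝓝[≠] (1 : ℂ)) := by
    refine tendsto_nhdsWithin_iff.2 ⟨?_, ?_⟩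
    · have h2 : Tendsto (fun u : ℝ => (u : ℂ)) (𝓝 (1 : ℝ)) (𝓝 ((1 : ℝ) : ℂ)) :=
        Complex.continuous_ofReal.tendsto 1
      rw [Complex.ofReal_one] at h2
      exact h2.mono_left nhdsWithin_le_nhds
    · filter_upwards [self_mem_nhdsWithin] with u hu
      intro h3
      apply hu
      have h4 : (u : ℂ) = ((1 : ℝ) : ℂ) := by
        rw [Complex.ofReal_one]
        exact h3
      exact Complex.ofReal_injective h4
  have hfreq : ∃ᶠ w : ℂ in 𝓝[≠] (1 : ℂ), ThM m n L x y w⁻¹ = w * ThM m n L x y w :=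
    htend.frequently hreal.frequently
  have heq := (hf.analyticOnNhd hopen).eqOn_of_preconnected_of_frequently_eq
    (hg.analyticOnNhd hopen) hconn h1mem hfreq
  intro w hw
  exact heq hw

end Pool.Agent.H13.FC
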