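import Pool.Agent.H6.FC.Lem

/-!
Row PAM of the board cfp_modules (`MP_7500ea_al`): the groups between `PSL(2, q)` and its
automorphism group.
-/

set_option autoImplicit false

namespace Pool.Agent.H13.FC

open FI AMc AMt

/-- a group with a normal subgroup with trivial centralizer embeds in the automorphism group -/
theorem emb {P A : Type} [Group P] [Group A] (S : Subgroup P) (S' : Subgroup A)
    (hS : ∀ g : P, (∀ s ∈ S, g * s = s * g) → g = 1)
    (hA : ∀ α : MulAut S, ∃ g : P, ∀ s : S, ((α s : S) : P) = g * s * g⁻¹) (hN : S'.Normal)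
    (hS' : ∀ a : A, (∀ s ∈ S', a * s = s * a) → a = 1) (ψ : S' ≃* S) :
    ∃ f : A →* P, Function.Injective f ∧ S ≤ f.range ∧ S' = S.comap f := by
  have huniq : ∀ g g' : P, (∀ s : S, g * (s : P) * g⁻¹ = g' * (s : P) * g'⁻¹) → g = g' := by
    intro g g' h
    have h1 : g'⁻¹ * g = 1 := by
      refine hS _ fun s hs => ?_
      have h2 := h ⟨s, hs⟩
      calc g'⁻¹ * g * s = g'⁻¹ * (g * s * g⁻¹) * g := by group
        _ = g'⁻¹ * (g' * s * g'⁻¹) * g := by rw [h2]
        _ = s * (g'⁻¹ * g) := by group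
    exact (inv_mul_eq_one.1 h1).symm
  have hF : ∀ a : A, ∃ g : P, ∀ s : S,
      ((ψ (MulAut.conjNormal a (ψ.symm s)) : S) : P) = g * s * g⁻¹ := fun a =>
    hA (ψ.symm.trans ((MulAut.conjNormal a : MulAut S').trans ψ))
  choose F hF using hF
  have hmul : ∀ a b : A, F (a * b) = F a * F b := by
    intro a b
    refine huniq _ _ fun s => ?_
    rw [← hF (a * b) s, map_mul]
    have h1 : ψ.symm (ψ (MulAut.conjNormal b (ψ.symm s))) = MulAut.conjNormal b (ψ.symm s) :=
      ψ.symm_apply_apply _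
    have h2 := hF a (ψ (MulAut.conjNormal b (ψ.symm s)))
    rw [h1, hF b s] at h2
    rw [MulAut.mul_apply, h2]
    group
  have hval : ∀ t : S', F (t : A) = ψ t := by
    intro t
    refine huniq _ _ fun s => ?_
    rw [← hF t s]
    have h1 : MulAut.conjNormal (t : A) (ψ.symm s) = t * ψ.symm s * t⁻¹ := by
      refine Subtype.ext ?_
      rw [MulAut.conjNormal_apply]
      rfl
    rw [h1, map_mul, map_mul, map_inv, ψ.apply_symm_apply]
    rfl
  have hinj : ∀ a : A, F a = 1 → a = 1 := by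
    intro a ha
    refine hS' a fun t ht => ?_
    have h1 := hF a (ψ ⟨t, ht⟩)
    rw [ha, one_mul, inv_one, mul_one, ψ.symm_apply_apply] at h1
    have h2 : MulAut.conjNormal a (⟨t, ht⟩ : S') = ⟨t, ht⟩ := ψ.injective (Subtype.ext h1)
    have h3 := congrArg Subtype.val h2
    rw [MulAut.conjNormal_apply] at h3
    have h4 : a * t * a⁻¹ = t := h3
    calc a * t = a * t * a⁻¹ * a := by group
      _ = t * a := by rw [h4]
  obtain ⟨f, hf⟩ : ∃ f : A →* P, ∀ a, f a = F a := ⟨MonoidHom.mk' F hmul, fun a => rfl⟩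
  have hfi : Function.Injective f := (injective_iff_map_eq_one f).2 fun a ha => hinj a (by
    rw [← hf]
    exact ha)
  refine ⟨f, hfi, fun s hs => ?_, ?_⟩
  · refine ⟨(ψ.symm ⟨s, hs⟩ : S'), ?_⟩
    rw [hf, hval, ψ.apply_symm_apply]
  · ext a
    rw [Subgroup.mem_comap, hf]
    constructor
    · intro ha
      have h1 := hval ⟨a, ha⟩
      rw [show F a = ψ ⟨a, ha⟩ from h1]
      exact (ψ ⟨a, ha⟩).2
    · intro ha
      have h1 : f (ψ.symm ⟨F a, ha⟩ : S') = f a := by
        rw [hf, hf, hval, ψ.apply_symm_apply]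
      rw [← hfi h1]
      exact (ψ.symm ⟨F a, ha⟩).2

theorem pf_PAM (CRD : T_CRD) (SLG : T_SLG) (UBF : T_UBF) (ALQ : T_ALQ) (SOL : T_SOL)
    (ALS : T_ALS) (PAU : T_PAU) (PSI : T_PSI) : T_PAM := by
  intro q hq h7 A _ _ S' hN hS' ⟨e⟩
  have hfin := (CRD q hq h7).1
  obtain ⟨ψ, _⟩ := PSI q hq
  have hAl := ALQ q (PG q) (MonoidHom.id _) hq h7 Function.injective_id (by
    intro x _
    exact ⟨x, rfl⟩)
  rw [Subgroup.comap_id] at hAl
  exact emb (PS q) S' (ALS (PG q) (PS q) hAl).2.2.2.1 (PAU q hq h7) hN hS' (e.trans ψ)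

end Pool.Agent.H13.FC
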