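import Pool.Agent.H6.FC.Lem

/-!
Row PAU of the board cfp_modules (`MP_7500ea_al`): the automorphisms of `PSL(2, q)`.
-/

set_option autoImplicit false

namespace Pool.Agent.H13.FC

open FI AMc AMt

/-- a group with a subgroup `B` and its normal subgroup `U` of prime order -/
structure Bor {P : Type} [Group P] (q : ℕ) (S U B : Subgroup P) : Prop where
  US : U ≤ S
  UB : U ≤ B
  nor : ∀ b ∈ B, ∀ u ∈ U, b * u * b⁻¹ ∈ U
  crU : Nat.card U = q
  crB : Nat.card B = q * (q - 1)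
  crP : Nat.card P = q * (q * q - 1)
  ti : ∀ a, a ∉ B → ∀ u ∈ U, a * u * a⁻¹ ∈ U → u = 1
  reg : ∀ b ∈ B, ∀ u ∈ U, u ≠ 1 → b * u = u * b → b ∈ U
  gen : ∀ (T : Subgroup P) (a : P), a ∉ B → U ≤ T → (∀ u ∈ U, a * u * a⁻¹ ∈ T) → S ≤ T
  ex : ∃ w ∈ S, w ∉ B

variable {P : Type} [Group P] {q : ℕ} {S U B : Subgroup P}

theorem Bor.fin (H : Bor q S U B) (hq : q.Prime) : Finite P := by
  refine Nat.finite_of_card_ne_zero ?_
  rw [H.crP]
  have h1 := hq.two_le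
  have h2 : 2 * 2 ≤ q * q := Nat.mul_le_mul h1 h1
  exact Nat.mul_ne_zero (by omega) (by omega)

theorem Bor.cyc (H : Bor q S U B) (hq : q.Prime) {u₀ u : P} (h0 : u₀ ∈ U) (h1 : u₀ ≠ 1)
    (hu : u ∈ U) : ∃ k : ℤ, u₀ ^ k = u := by
  have hf : Fact q.Prime := ⟨hq⟩
  have h2 : (⟨u, hu⟩ : U) ∈ Subgroup.zpowers (⟨u₀, h0⟩ : U) :=
    mem_zpowers_of_prime_card H.crU (fun h => h1 (congrArg Subtype.val h))
  obtain ⟨k, hk⟩ := Subgroup.mem_zpowers_iff.1 h2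
  exact ⟨k, by simpa using congrArg Subtype.val hk⟩

theorem Bor.exu (H : Bor q S U B) (hq : q.Prime) : ∃ u ∈ U, u ≠ 1 := by
  by_contra h
  push Not at h
  have h1 : U = ⊥ := (Subgroup.eq_bot_iff_forall U).2 h
  have h2 := H.crU
  rw [h1, Subgroup.card_bot] at h2
  exact hq.one_lt.ne h2

theorem Bor.com (H : Bor q S U B) (hq : q.Prime) {u v : P} (hu : u ∈ U) (hv : v ∈ U) :
    u * v = v * u := by
  obtain ⟨u₀, h0, h1⟩ := H.exu hq
  obtain ⟨k, rfl⟩ := H.cyc hq h0 h1 hu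
  obtain ⟨l, rfl⟩ := H.cyc hq h0 h1 hv
  exact (Commute.refl u₀).zpow_zpow k l

theorem Bor.powU (H : Bor q S U B) {u : P} (hu : u ∈ U) : u ^ q = 1 := by
  have h := pow_card_eq_one' (x := (⟨u, hu⟩ : U))
  rw [H.crU] at h
  exact congrArg Subtype.val h

/-- the elements of order `q` of `B` are in `U` -/
theorem Bor.elt (H : Bor q S U B) (hq : q.Prime) {x : P} (hx : x ∈ B) (hxq : x ^ q = 1) :
    x ∈ U := by
  have hN : (U.subgroupOf B).Normal := ⟨fun u hu b => by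
    rw [Subgroup.mem_subgroupOf] at hu ⊢
    exact H.nor b b.2 u hu⟩
  have hc : Nat.card (U.subgroupOf B) = q := by
    rw [Nat.card_congr (Subgroup.subgroupOfEquivOfLe H.UB).toEquiv, H.crU]
  have hi : (U.subgroupOf B).index = q - 1 := by
    have h1 := Subgroup.card_mul_index (U.subgroupOf B)
    rw [hc, H.crB] at h1
    exact Nat.eq_of_mul_eq_mul_left hq.pos h1
  have h2 := Subgroup.pow_index_mem (U.subgroupOf B) ⟨x, hx⟩
  rw [hi, Subgroup.mem_subgroupOf] at h2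
  have h3 : x ^ (q - 1) ∈ U := h2
  have h4 : x = (x ^ (q - 1))⁻¹ := by
    rw [eq_inv_iff_mul_eq_one, ← pow_succ', Nat.sub_add_cancel hq.one_le, hxq]
  rw [h4]
  exact U.inv_mem h3

theorem Bor.conjU (H : Bor q S U B) (w : P) {u : P} (hu : u ∈ U) :
    (w * u * w⁻¹) ^ q = 1 := by
  rw [_root_.conj_pow, H.powU hu, mul_one, mul_inv_cancel]

/-- Bruhat decomposition -/
theorem Bor.bruhat (H : Bor q S U B) (hq : q.Prime) {w : P} (hw : w ∉ B) {x : P} (hx : x ∉ B) :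
    ∃ u ∈ U, ∃ b ∈ B, x = u * w * b := by
  have hfin := H.fin hq
  obtain ⟨F, hFdef⟩ : ∃ F : (U × B) ⊕ B → P, F = Sum.elim
    (fun t : U × B => (t.1 : P) * w * (t.2 : P)) (fun b : B => (b : P)) := ⟨_, rfl⟩
  have hnb : ∀ u ∈ U, ∀ b ∈ B, u * w * b ∉ B := by
    intro u hu b hb h
    refine hw ?_
    have h1 : w = u⁻¹ * (u * w * b) * b⁻¹ := by group
    rw [h1]
    exact B.mul_mem (B.mul_mem (B.inv_mem (H.UB hu)) h) (B.inv_mem hb)
  have hF : Function.Injective F := by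
    rw [hFdef]
    rintro (⟨⟨u, hu⟩, ⟨b, hb⟩⟩ | ⟨b, hb⟩) (⟨⟨u', hu'⟩, ⟨b', hb'⟩⟩ | ⟨b', hb'⟩) h
    · have h1 : u * w * b = u' * w * b' := h
      have h2 : w * (b' * b⁻¹) * w⁻¹ = u'⁻¹ * u := by
        calc w * (b' * b⁻¹) * w⁻¹ = u'⁻¹ * (u' * w * b') * b⁻¹ * w⁻¹ := by group
          _ = u'⁻¹ * (u * w * b) * b⁻¹ * w⁻¹ := by rw [h1]
          _ = u'⁻¹ * u := by group
      have hU : u'⁻¹ * u ∈ U := U.mul_mem (U.inv_mem hu') hu
      have hyB : b' * b⁻¹ ∈ B := B.mul_mem hb' (B.inv_mem hb)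
      have hy : b' * b⁻¹ = w⁻¹ * (u'⁻¹ * u) * (w⁻¹)⁻¹ := by
        rw [← h2]
        group
      have hyU : b' * b⁻¹ ∈ U := by
        refine H.elt hq hyB ?_
        rw [hy]
        exact H.conjU w⁻¹ hU
      have hy1 : b' * b⁻¹ = 1 := H.ti w hw _ hyU (by rw [h2]; exact hU)
      have hbb : b' = b := mul_inv_eq_one.1 hy1
      subst hbb
      have huu : u = u' := mul_right_cancel (mul_right_cancel h1)
      subst huu
      rfl
    · exact absurd (show u * w * b ∈ B by rw [show u * w * b = b' from h]; exact hb')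
        (hnb u hu b hb)
    · exact absurd (show u' * w * b' ∈ B by rw [show u' * w * b' = b from h.symm]; exact hb)
        (hnb u' hu' b' hb')
    · have : b = b' := h
      subst this
      rfl
  have hcard : Nat.card ((U × B) ⊕ B) = Nat.card P := by
    rw [Nat.card_sum, Nat.card_prod, H.crU, H.crB, H.crP]
    obtain ⟨r, rfl⟩ : ∃ r, q = r + 1 := ⟨q - 1, (Nat.sub_add_cancel hq.one_le).symm⟩
    have e1 : (r + 1) * (r + 1) - 1 = r * (r + 2) := by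
      have : (r + 1) * (r + 1) = r * (r + 2) + 1 := by ring
      omega
    rw [e1, Nat.add_sub_cancel]
    ring
  obtain ⟨t, ht⟩ := ((Nat.bijective_iff_injective_and_card F).2 ⟨hF, hcard⟩).2 x
  rw [hFdef] at ht
  rcases t with ⟨u, b⟩ | b
  · exact ⟨u, u.2, b, b.2, ht.symm⟩
  · refine absurd ?_ hx
    rw [← ht]
    exact b.2

/-- `B` is transitive on the nontrivial elements of `U` -/
theorem Bor.tra (H : Bor q S U B) (hq : q.Prime) {u₀ t : P} (h0 : u₀ ∈ U) (h1 : u₀ ≠ 1)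
    (ht : t ∈ U) (ht1 : t ≠ 1) : ∃ b ∈ B, b * t * b⁻¹ = u₀ := by
  classical
  have hfin := H.fin hq
  have hB : Fintype B := Fintype.ofFinite _
  have hU : Fintype U := Fintype.ofFinite _
  by_contra hno
  push Not at hno
  have hmaps : ∀ b ∈ (Finset.univ : Finset B), (⟨(b : P) * t * (b : P)⁻¹, H.nor b b.2 t ht⟩ : U) ∈
      ((Finset.univ : Finset U).erase 1).erase ⟨u₀, h0⟩ := by
    intro b _
    rw [Finset.mem_erase, Finset.mem_erase]
    refine ⟨fun h => hno b b.2 (congrArg Subtype.val h), fun h => ht1 ?_, Finset.mem_univ _⟩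
    have h2 : (b : P) * t * (b : P)⁻¹ = 1 := congrArg Subtype.val h
    have h3 : t = (b : P)⁻¹ * ((b : P) * t * (b : P)⁻¹) * b := by group
    rw [h3, h2]
    group
  have hle := Finset.card_le_mul_card_image_of_maps_to hmaps q (by
    intro y _
    rcases Finset.eq_empty_or_nonempty (Finset.univ.filter fun b : B =>
      (⟨(b : P) * t * (b : P)⁻¹, H.nor b b.2 t ht⟩ : U) = y) with he | ⟨a₀, ha₀⟩
    · rw [he, Finset.card_empty]
      exact Nat.zero_le _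
    · have h2 := (Finset.mem_filter.1 ha₀).2
      have hsub : (Finset.univ.filter fun b : B =>
          (⟨(b : P) * t * (b : P)⁻¹, H.nor b b.2 t ht⟩ : U) = y) ⊆
          (Finset.univ : Finset U).image fun u : U => a₀ * ⟨u, H.UB u.2⟩ := by
        intro a ha
        have h3 := (Finset.mem_filter.1 ha).2
        have h4 : (a : P) * t * (a : P)⁻¹ = (a₀ : P) * t * (a₀ : P)⁻¹ :=
          congrArg Subtype.val (h3.trans h2.symm)
        have h5 : ((a₀ : P)⁻¹ * a) * t = t * ((a₀ : P)⁻¹ * a) := by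
          calc ((a₀ : P)⁻¹ * a) * t = (a₀ : P)⁻¹ * ((a : P) * t * (a : P)⁻¹) * a := by group
            _ = (a₀ : P)⁻¹ * ((a₀ : P) * t * (a₀ : P)⁻¹) * a := by rw [h4]
            _ = t * ((a₀ : P)⁻¹ * a) := by group
        have h6 : (a₀ : P)⁻¹ * a ∈ U :=
          H.reg _ (B.mul_mem (B.inv_mem a₀.2) a.2) t ht ht1 h5
        refine Finset.mem_image.2 ⟨⟨_, h6⟩, Finset.mem_univ _, Subtype.ext ?_⟩
        change (a₀ : P) * ((a₀ : P)⁻¹ * a) = a
        group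
      refine (Finset.card_le_card hsub).trans (Finset.card_image_le.trans ?_)
      rw [Finset.card_univ, ← Nat.card_eq_fintype_card, H.crU])
  have hc2 : (((Finset.univ : Finset U).erase 1).erase ⟨u₀, h0⟩).card = q - 1 - 1 := by
    rw [Finset.card_erase_of_mem, Finset.card_erase_of_mem (Finset.mem_univ _),
      Finset.card_univ, ← Nat.card_eq_fintype_card, H.crU]
    rw [Finset.mem_erase]
    exact ⟨fun h => h1 (congrArg Subtype.val h), Finset.mem_univ _⟩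
  rw [hc2, Finset.card_univ, ← Nat.card_eq_fintype_card, H.crB] at hle
  have h7 := Nat.le_of_mul_le_mul_left hle hq.pos
  have := hq.two_le
  omega

/-- elements of order `q` are conjugate to elements of `U` -/
theorem Bor.syl (H : Bor q S U B) (hq : q.Prime) {s : P} (hs : s ≠ 1) (hsq : s ^ q = 1) :
    ∃ g : P, g * s * g⁻¹ ∈ U := by
  have hf : Fact q.Prime := ⟨hq⟩
  have hfin := H.fin hq
  have ho : orderOf s = q := orderOf_eq_prime hsq hs
  have hfac : (Nat.card P).factorization q = 1 := by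
    have h2 : 2 * 2 ≤ q * q := Nat.mul_le_mul hq.two_le hq.two_le
    rw [H.crP, Nat.factorization_mul hq.ne_zero (by omega), Finsupp.add_apply,
      hq.factorization_self, Nat.factorization_eq_zero_of_not_dvd]
    intro h
    have h3 : q ∣ q * q - (q * q - 1) := Nat.dvd_sub (Dvd.intro _ rfl) h
    have h4 : q * q - (q * q - 1) = 1 := by omega
    rw [h4] at h3
    exact hq.one_lt.ne' (Nat.dvd_one.1 h3)
  obtain ⟨P1, hP1⟩ : ∃ P1 : Sylow q P, (P1 : Subgroup P) = Subgroup.zpowers s :=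
    ⟨Sylow.ofCard (Subgroup.zpowers s) (by rw [Nat.card_zpowers, ho, hfac, pow_one]), rfl⟩
  obtain ⟨P2, hP2⟩ : ∃ P2 : Sylow q P, (P2 : Subgroup P) = U :=
    ⟨Sylow.ofCard U (by rw [H.crU, hfac, pow_one]), rfl⟩
  obtain ⟨g, hg⟩ := MulAction.exists_smul_eq P P1 P2
  refine ⟨g, ?_⟩
  have h1 : s ∈ (P1 : Subgroup P) := by
    rw [hP1]
    exact Subgroup.mem_zpowers s
  have h2 : g * s * g⁻¹ ∈ ((g • P1 : Sylow q P) : Subgroup P) := by
    rw [Sylow.coe_subgroup_smul]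
    exact Subgroup.smul_mem_pointwise_smul s (MulAut.conj g) _ h1
  rw [hg, hP2] at h2
  exact h2

/-- third step: the homomorphism is the identity -/
theorem Bor.main3 (H : Bor q S U B) (hq : q.Prime) (a : S →* P)
    (hU : ∀ u (hu : u ∈ U), a ⟨u, H.US hu⟩ = u) {w b' : P} (hwS : w ∈ S) (hwB : w ∉ B)
    (hb' : b' ∈ B) (hw : a ⟨w, hwS⟩ = w * b') (s : S) : a s = s := by
  obtain ⟨u₀, h0, h1⟩ := H.exu hq
  have hw' : w⁻¹ ∉ B := fun h => hwB (by simpa using B.inv_mem h)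
  have hx : w⁻¹ * u₀ * (w⁻¹)⁻¹ ∉ B := by
    intro h
    exact h1 (H.ti w⁻¹ hw' u₀ h0 (H.elt hq h (H.conjU w⁻¹ h0)))
  obtain ⟨u₁, hu₁, b₁, hb₁, he⟩ := H.bruhat hq hw' hx
  have hb1 : b₁ = w * u₁⁻¹ * w⁻¹ * u₀ * w := by
    have : b₁ = w * u₁⁻¹ * (u₁ * w⁻¹ * b₁) := by group
    rw [this, ← he]
    group
  have hu1 : u₁ ≠ 1 := by
    intro h
    rw [h] at hb1
    refine hwB ?_
    have h2 : w = u₀⁻¹ * b₁ := by
      rw [hb1]
      group
    rw [h2]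
    exact B.mul_mem (B.inv_mem (H.UB h0)) hb₁
  -- the element `b₁` of `S`
  obtain ⟨W, hW⟩ : ∃ W : S, W = ⟨w, hwS⟩ := ⟨_, rfl⟩
  obtain ⟨X₀, hX₀⟩ : ∃ X₀ : S, X₀ = ⟨u₀, H.US h0⟩ := ⟨_, rfl⟩
  obtain ⟨X₁, hX₁⟩ : ∃ X₁ : S, X₁ = ⟨u₁, H.US hu₁⟩ := ⟨_, rfl⟩
  have aW : a W = w * b' := by rw [hW, hw]
  have aX₀ : a X₀ = u₀ := by rw [hX₀, hU _ h0]
  have aX₁ : a X₁ = u₁ := by rw [hX₁, hU _ hu₁]
  obtain ⟨Y, hY⟩ : ∃ Y : S, Y = W * X₁⁻¹ * W⁻¹ * X₀ * W := ⟨_, rfl⟩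
  have hYb : (Y : P) = b₁ := by
    rw [hY, hb1, hW, hX₀, hX₁]
    rfl
  have aY : a Y = (w * b') * u₁⁻¹ * (w * b')⁻¹ * u₀ * (w * b') := by
    rw [hY]
    simp only [map_mul, map_inv, aW, aX₀, aX₁]
  have aYB : a Y ∈ B := by
    by_contra h
    refine h1 (H.ti _ h u₀ h0 ?_)
    have h2 : b₁ * u₀ * b₁⁻¹ ∈ U := H.nor b₁ hb₁ u₀ h0
    have h3 : a Y * u₀ * (a Y)⁻¹ = a (Y * X₀ * Y⁻¹) := by
      simp only [map_mul, map_inv, aX₀]
    have h4 : Y * X₀ * Y⁻¹ = ⟨b₁ * u₀ * b₁⁻¹, H.US h2⟩ := by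
      refine Subtype.ext ?_
      change (Y : P) * (X₀ : P) * (Y : P)⁻¹ = _
      rw [hYb, hX₀]
    rw [h3, h4, hU _ h2]
    exact h2
  have hu₂ : b' * u₁ * b'⁻¹ ∈ U := H.nor b' hb' u₁ hu₁
  have hyB : w * (u₁⁻¹ * (b' * u₁ * b'⁻¹)) * w⁻¹ ∈ B := by
    have h2 : w * (u₁⁻¹ * (b' * u₁ * b'⁻¹)) * w⁻¹ = b₁ * (a Y * b'⁻¹)⁻¹ := by
      rw [aY, hb1]
      group
    rw [h2]
    exact B.mul_mem hb₁ (B.inv_mem (B.mul_mem aYB (B.inv_mem hb')))
  have hyU : u₁⁻¹ * (b' * u₁ * b'⁻¹) ∈ U := U.mul_mem (U.inv_mem hu₁) hu₂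
  have hy1 : u₁⁻¹ * (b' * u₁ * b'⁻¹) = 1 :=
    H.ti w hwB _ hyU (H.elt hq hyB (H.conjU w hyU))
  have hb'U : b' ∈ U := by
    refine H.reg b' hb' u₁ hu₁ hu1 ?_
    have h2 : b' * u₁ * b'⁻¹ = u₁ := (inv_mul_eq_one.1 hy1).symm
    calc b' * u₁ = b' * u₁ * b'⁻¹ * b' := by group
      _ = u₁ * b' := by rw [h2]
  have key : S ≤ (a.eqLocus S.subtype).map S.subtype := by
    refine H.gen _ w hwB ?_ ?_
    · intro u hu
      exact ⟨⟨u, H.US hu⟩, hU u hu, rfl⟩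
    · intro u hu
      obtain ⟨X, hX⟩ : ∃ X : S, X = ⟨u, H.US hu⟩ := ⟨_, rfl⟩
      have aX : a X = u := by rw [hX, hU _ hu]
      refine ⟨W * X * W⁻¹, ?_, ?_⟩
      · change a (W * X * W⁻¹) = ((W * X * W⁻¹ : S) : P)
        have h3 : ((W * X * W⁻¹ : S) : P) = w * u * w⁻¹ := by
          rw [hW, hX]
          rfl
        simp only [map_mul, map_inv, aW, aX]
        rw [h3]
        have h4 := H.com hq hb'U hu
        calc w * b' * u * (w * b')⁻¹ = w * (b' * u) * b'⁻¹ * w⁻¹ := by group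
          _ = w * (u * b') * b'⁻¹ * w⁻¹ := by rw [h4]
          _ = w * u * w⁻¹ := by group
      · rw [hW, hX]
        rfl
  obtain ⟨s', hs', hss⟩ := key s.2
  have h2 : s' = s := Subtype.ext hss
  rw [← h2]
  exact hs'

/-- second step -/
theorem Bor.main2 (H : Bor q S U B) (hq : q.Prime) (a : S →* P) (ha : Function.Injective a)
    (hU : ∀ u (hu : u ∈ U), a ⟨u, H.US hu⟩ = u) : ∃ g : P, ∀ s : S, a s = g * s * g⁻¹ := by
  obtain ⟨u₀, h0, h1⟩ := H.exu hq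
  obtain ⟨w, hwS, hwB⟩ := H.ex
  obtain ⟨W, hW⟩ : ∃ W : S, W = ⟨w, hwS⟩ := ⟨_, rfl⟩
  have hw' : a W ∉ B := by
    intro h
    have h2 := H.nor _ h u₀ h0
    have h3 : a W * u₀ * (a W)⁻¹ = a (W * ⟨u₀, H.US h0⟩ * W⁻¹) := by
      simp only [map_mul, map_inv, hU _ h0]
    have h4 : W * ⟨u₀, H.US h0⟩ * W⁻¹ = ⟨_, H.US h2⟩ := ha (by rw [hU _ h2, h3])
    have h6 : (W : P) = w := by rw [hW]
    have h5 : w * u₀ * w⁻¹ = a W * u₀ * (a W)⁻¹ := by
      have h7 : (W : P) * u₀ * (W : P)⁻¹ = a W * u₀ * (a W)⁻¹ := congrArg Subtype.val h4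
      rw [h6] at h7
      exact h7
    exact h1 (H.ti w hwB u₀ h0 (by rw [h5]; exact h2))
  obtain ⟨u, hu, b, hb, he⟩ := H.bruhat hq hwB hw'
  have h3 := H.main3 hq ((MulAut.conj u⁻¹).toMonoidHom.comp a) (fun v hv => ?_) hwS hwB
    (B.mul_mem hb (H.UB hu)) ?_
  · refine ⟨u, fun s => ?_⟩
    have h4 : u⁻¹ * a s * (u⁻¹)⁻¹ = s := h3 s
    rw [← h4]
    group
  · change u⁻¹ * a ⟨v, H.US hv⟩ * (u⁻¹)⁻¹ = v
    rw [hU v hv, inv_inv]
    have h4 := H.com hq hu hv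
    calc u⁻¹ * v * u = u⁻¹ * (u * v) := by rw [h4, mul_assoc]
      _ = v := by group
  · change u⁻¹ * a ⟨w, hwS⟩ * (u⁻¹)⁻¹ = w * (b * u)
    rw [← hW, he]
    group

theorem Bor.main (H : Bor q S U B) (hq : q.Prime) (a : S →* P) (ha : Function.Injective a) :
    ∃ g : P, ∀ s : S, a s = g * s * g⁻¹ := by
  obtain ⟨u₀, h0, h1⟩ := H.exu hq
  have hs1 : a ⟨u₀, H.US h0⟩ ≠ 1 := by
    intro h
    have h2 : (⟨u₀, H.US h0⟩ : S) = 1 := ha (by rw [h, map_one])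
    exact h1 (congrArg Subtype.val h2)
  have hsq : (a ⟨u₀, H.US h0⟩) ^ q = 1 := by
    rw [← map_pow]
    have h2 : (⟨u₀, H.US h0⟩ : S) ^ q = 1 := Subtype.ext (H.powU h0)
    rw [h2, map_one]
  obtain ⟨g, hg⟩ := H.syl hq hs1 hsq
  obtain ⟨b, hb, hbu⟩ := H.tra hq h0 h1 hg (by
    intro h
    refine hs1 ?_
    have h2 : a ⟨u₀, H.US h0⟩ = g⁻¹ * (g * a ⟨u₀, H.US h0⟩ * g⁻¹) * g := by group
    rw [h2, h]
    group)
  obtain ⟨k, hk⟩ : ∃ k, k = b * g := ⟨_, rfl⟩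
  have hfix : ∀ u (hu : u ∈ U), ((MulAut.conj k).toMonoidHom.comp a) ⟨u, H.US hu⟩ = u := by
    have h2 : ((MulAut.conj k).toMonoidHom.comp a) ⟨u₀, H.US h0⟩ = u₀ := by
      change k * a ⟨u₀, H.US h0⟩ * k⁻¹ = u₀
      refine Eq.trans ?_ hbu
      rw [hk]
      group
    intro u hu
    obtain ⟨n, rfl⟩ := H.cyc hq h0 h1 hu
    have h3 : (⟨u₀ ^ n, H.US hu⟩ : S) = ⟨u₀, H.US h0⟩ ^ n := Subtype.ext (by simp)
    rw [h3, map_zpow, h2]
  obtain ⟨g', hg'⟩ := H.main2 hq ((MulAut.conj k).toMonoidHom.comp a)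
    ((MulAut.conj k).injective.comp ha) hfix
  refine ⟨k⁻¹ * g', fun s => ?_⟩
  have h2 : k * a s * k⁻¹ = g' * s * g'⁻¹ := hg' s
  have h3 : a s = k⁻¹ * (k * a s * k⁻¹) * k := by group
  rw [h3, h2]
  group

theorem pf_PAU (CRD : T_CRD) (UBF : T_UBF) : T_PAU := by
  intro q hq h7 α
  obtain ⟨hfin, hcard, hidx, hnor⟩ := CRD q hq h7
  obtain ⟨U, B, h⟩ := UBF q hq h7
  have H : Bor q (PS q) U B :=
    { US := h.US, UB := h.UB, nor := h.nor, crU := h.crU, crB := h.crB, crP := hcard,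
      ti := h.ti, reg := h.reg, gen := h.gen, ex := by
        by_contra hno
        push Not at hno
        have hle : PS q ≤ B := hno
        have h1 := h.crS
        rw [inf_eq_right.2 hle] at h1
        have h2 := Subgroup.card_mul_index (PS q)
        rw [hidx, hcard, mul_comm, h1] at h2
        have h3 := Nat.eq_of_mul_eq_mul_left hq.pos h2
        have h4 : 7 * q ≤ q * q := Nat.mul_le_mul_right q h7
        omega }
  exact H.main hq ((PS q).subtype.comp α.toMonoidHom)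
    ((PS q).subtype_injective.comp α.injective)

end Pool.Agent.H13.FC
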